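import Pool.Agent.H891R3.Kag.Stmts
import Pool.Agent.H891R3.Kag.Inv
import Pool.Agent.H891R3.Kag.Two2
import Pool.Agent.H721R3.Kag.Line
import Pool.Agent.H787R3.Kag.Erg

set_option autoImplicit false

namespace Pool.Agent.Results.MP_11305c_co.KagomeThreeColours

open Pool.Agent.H411R2.WSK

/-- **Q2.** The WSK dynamics for `q = 3` colours on the periodic `n × n` kagome lattice (`n ≥ 2`) is
ergodic if and only if `n = 2`. -/
theorem result : ∀ n : ℕ, 2 ≤ n → (WSKErgodic (kagome n) 3 ↔ n = 2) :=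
  fun n hn => Pool.Agent.H891R3.Kag.final Pool.Agent.H891R3.Kag.taskInv
    Pool.Agent.H891R3.Kag.taskTwo Pool.Agent.H787R3.Kag.taskErg Pool.Agent.H891R3.Kag.taskLine n hn

end Pool.Agent.Results.MP_11305c_co.KagomeThreeColours
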